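import Pool.Agent.H654R4.MO.Time

/-!
# Orienting a mixed graph for one path and two arc-disjoint paths: polynomial time

Method: *unit closure*.  Call an undirected edge forced if one of its two orientations makes one of
the two demands infeasible by itself (a reachability, or a unit-capacity flow, computation); orient
all forced edges, and repeat.  If in the end each of the two demands is feasible by itself, then
there is an orientation satisfying both.  This is proved in `Orient.lean` by uncrossing: if every
undirected edge leaves only cuts of value at least three for the double demand and at least two for
the single one, one constructs levels of tight cuts, two systems of tracks through them and a
routing of the single demand which uses the undirected edges crossing the levels in the direction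
of the double demand.  An orientation is found by self-reduction.
-/

namespace Pool.Agent.Results.MP_5d9c5f_lc.OrientPoly

open Pool.Agent.NPC Pool.Agent.H654R4.MO

/-- **Orientations of mixed graphs with one path and two arc-disjoint paths.**  The decision
problem is in `P`, and there is a polynomial-time algorithm `G` which outputs a suitable
orientation `o` whenever there is one, and otherwise reports that there is none. -/
theorem result :
    InPP (fun I : Inst => ∃ o, Good I o) ∧
    ∃ G : List Bool → List Bool, PolyTime G ∧ ∀ I : Inst,
      (∃ o, G (bits I) = bits (some o) ∧ Good I o) ∨
        (G (bits I) = bits (none : Option (List Bool)) ∧ ∀ o, ¬ Good I o) :=
  ⟨inPP_good, search_good⟩

end Pool.Agent.Results.MP_5d9c5f_lc.OrientPoly
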